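import Pool.Agent.H6.FK.Lib

/-!
# Row EC of the board fk2_modules
-/

set_option autoImplicit false

open Pool.Agent.H84.FK Pool.Agent.H6.FKLib

namespace Pool.Agent.H6.FKEC

theorem pf_ec (hSYL : T_SYL) (hFIX : T_FIX) (hJ2 : T_J2) (hD2 : T_D2) (hD3 : T_D3) (hD4 : T_D4)
    (hD7 : T_D7) (hSW : T_SW) (_hOVS : T_OVS) : T_EC := by
  intro G _ A A0 B B0 H J t hce h2A h2B hovH htyH hovJ htyJ
  have := hce.fin
  obtain ⟨S, hsy⟩ := hSYL G A A0 B B0 hce
  have hceB := hSW G A A0 B B0 hce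
  have hA := mk_side hFIX hJ2 hD2 hD3 hD4 hSW hce h2A h2B hovH htyH hsy
  obtain ⟨z, hzS, hz0, hz1, hzz, hzA⟩ := hA.zz
  obtain ⟨w, hwS, hw0, hw1, hww, hwB⟩ := hA.ww
  obtain ⟨s1, hs1S, hs1A, hs1A0⟩ := hsy.sA
  have hSne : S ≠ ⊥ := by
    rintro rfl
    exact hz1 (Subgroup.mem_bot.1 hzS)
  obtain ⟨v, hvS, hv1, hvv, hvc⟩ := exists_center hsy.pg hSne
  have hvH : v ∈ H := cent_le_ov hD2 hce hovH hz1 hzA (hvc z hzS).symm
  have hvJ : v ∈ J := cent_le_ov hD2 hceB hovJ hw1 hwB (hvc w hwS).symm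
  obtain ⟨htB, htB0, htt, htH, htHB⟩ := htyH
  rcases hA.cov v hvH with h1 | h1
  · have hv0 := htyJ.1 v hvJ h1
    have hvA : ∀ a ∈ A, a * v = v * a := two_cent hce.twoA hs1A hs1A0
      (fun b hb => hce.abA b hb v hv0) (hvc s1 hs1S)
    exact hD7 G A A0 B B0 hce v w 1 hv1 hw1 hvA hwB (by simpa using (hvc w hwS).symm)
  obtain ⟨a, ha, haS, b, hb, hbS, hab⟩ := hsy.fac v hvS
  have hvt : v = v * t * t := by rw [mul_assoc, htt, mul_one]
  have h3 : a⁻¹ * (v * t) = b * t⁻¹ := by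
    have : a⁻¹ * (v * t) = a⁻¹ * (v * t * t) * t⁻¹ := by group
    rw [this, ← hvt, hab]; group
  have h4 : a⁻¹ * (v * t) = 1 := hA.inter _ (A.mul_mem (A.inv_mem ha) h1)
    (h3 ▸ B.mul_mem hb (B.inv_mem htB))
  have htS : t ∈ S := by
    have : b = t := mul_inv_eq_one.1 (h3.symm.trans h4)
    exact this ▸ hbS
  have heS : v * t ∈ S := S.mul_mem hvS htS
  have heJ : v * t ∈ J := J.mul_mem hvJ (hovJ.le htB)
  have hA2 := hA.abA2 htS h1 heS (by
    intro g hg
    rw [← hvt]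
    exact hvc g hg)
  have he1 : v * t = 1 := by
    refine htyJ.2 s1 hs1A hs1A0 _ heJ h1 ?_
    have : s1 * (v * t) * s1⁻¹ = v * t := by
      rw [hA2 s1 hs1S hs1A _ heS h1]; group
    rw [this]; exact heJ
  have hvt' : v = t := by
    have : v = t⁻¹ := eq_inv_of_mul_eq_one_left he1
    rw [this, inv_eq_of_mul_eq_one_left htt]
  have htc : ∀ g ∈ S, g * t = t * g := hvt' ▸ hvc
  have hU := hA.cenU hA2
  have hV : ∀ y ∈ S, y ∈ B0 → ∀ b ∈ B, b * y = y * b := by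
    intro y hyS hy0
    exact two_cent hce.twoB htB htB0 (fun b hb => hce.abB b hb y hy0) (htc y hyS).symm
  have hSJ : ∀ g ∈ S, g ∈ J → g ∈ B := by
    intro g hgS hgJ
    obtain ⟨a, ha, haS, b, hb, hbS, rfl⟩ := hsy.fac g hgS
    have haJ : a ∈ J := by
      have : a = a * b * b⁻¹ := by group
      rw [this]
      exact J.mul_mem hgJ (J.inv_mem (hovJ.le hb))
    have ha0 := htyJ.1 a haJ ha
    have ha1 : a = 1 := by
      refine htyJ.2 s1 hs1A hs1A0 a haJ ha ?_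
      have : s1 * a * s1⁻¹ = a := by rw [hU a haS ha0 s1 hs1A]; group
      rw [this]; exact haJ
    rw [ha1, one_mul]; exact hb
  have hBne : S ⊓ B ≠ S := by
    intro he
    have : z ∈ S ⊓ B := by rw [he]; exact hzS
    exact hz1 (hA.inter z (hce.twoA.1 hz0) this.2)
  obtain ⟨g, hgS, hgB, hgn⟩ := exists_norm hsy.pg (inf_le_left : S ⊓ B ≤ S) hBne
  have hgJ : g ∉ J := fun h => hgB ⟨hgS, hSJ g hgS h⟩
  have hti : ∀ u ∈ S ⊓ B0, ∀ u' ∈ S ⊓ B0, u = g * u' * g⁻¹ → u = 1 := by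
    intro u hu u' hu' he
    by_contra hu1
    refine hgJ (hovJ.conj g fun a ha => ?_)
    refine cent_le_ov hD2 hceB hovJ hu1 (hV u hu.1 hu.2) ?_
    have h1 := hV u' hu'.1 hu'.2 a ha
    rw [he]
    calc g * a * g⁻¹ * (g * u' * g⁻¹) = g * (a * u') * g⁻¹ := by group
      _ = g * (u' * a) * g⁻¹ := by rw [h1]
      _ = g * u' * g⁻¹ * (g * a * g⁻¹) := by group
  have hcB : Nat.card (S ⊓ B : Subgroup G) = 2 * Nat.card (S ⊓ B0 : Subgroup G) := by
    refine card_two (fun x hx => ⟨hx.1, hce.twoB.1 hx.2⟩) (t := t) ⟨htS, htB⟩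
      (fun h1 => htB0 h1.2) ?_
    intro g hg
    rcases two_split' hce.twoB htB htB0 hg.2 with h1 | h1
    · exact Or.inl ⟨hg.1, h1⟩
    · exact Or.inr ⟨S.mul_mem hg.1 htS, h1⟩
  have hcV : Nat.card (S ⊓ B0 : Subgroup G) ≤ 2 := by
    have h1 := card_sq_le (U := S ⊓ B0) (Y := S ⊓ B) (g := g)
      (fun x hx => ⟨hx.1, hce.twoB.1 hx.2⟩)
      (fun x hx => (hgn x).1 ⟨hx.1, hce.twoB.1 hx.2⟩) hti
    rw [hcB] at h1
    have h2 : 0 < Nat.card (S ⊓ B0 : Subgroup G) := Nat.card_pos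
    exact Nat.le_of_mul_le_mul_right h1 h2
  have hwH : w ∉ H := hA.w_notMem hw0 hw1
  have hwi : w⁻¹ = w := inv_eq_of_mul_eq_one_left hww
  -- `w` normalises `S ∩ H`
  have hwn : ∀ x ∈ S ⊓ H, w * x * w⁻¹ ∈ S ⊓ H := by
    rintro x ⟨hxS, hxH⟩
    refine ⟨S.mul_mem (S.mul_mem hwS hxS) (S.inv_mem hwS), ?_⟩
    by_contra hcon
    obtain ⟨a, ha, haS, b, hb, hbS, he⟩ :=
      hsy.fac (w * x * w⁻¹) (S.mul_mem (S.mul_mem hwS hxS) (S.inv_mem hwS))
    have haH := hovH.le ha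
    have key : ∀ c ∈ H, w * x * w⁻¹ ≠ c * w := by
      intro c hc h
      apply hwH
      have h5 : w * x * w⁻¹ * w = c * w * w := by rw [h]
      have h6 : w * x = c := by
        calc w * x = w * x * w⁻¹ * w := by group
          _ = c * (w * w) := by rw [h5]; group
          _ = c := by rw [hww, mul_one]
      have h7 : w = c * x⁻¹ := by rw [← h6]; group
      rw [h7]
      exact H.mul_mem hc (H.inv_mem hxH)
    rcases two_split' hce.twoB htB htB0 hb with h5 | h5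
    · by_cases hb1 : b = 1
      · apply hcon
        rw [he, hb1, mul_one]; exact haH
      · have : b = w := eq_of_card_le_two hcV ⟨hbS, h5⟩ ⟨hwS, hw0⟩ hb1 hw1
        exact key a haH (by rw [he, this])
    · by_cases hb1 : b * t = 1
      · apply hcon
        rw [he]
        have : b = t := by
          have : b = t⁻¹ := eq_inv_of_mul_eq_one_left hb1
          rw [this, inv_eq_of_mul_eq_one_left htt]
        rw [this]; exact H.mul_mem haH htH
      · have h6 : b * t = w :=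
          eq_of_card_le_two hcV ⟨S.mul_mem hbS htS, h5⟩ ⟨hwS, hw0⟩ hb1 hw1
        have h7 : b = t * w := by
          have : b = w * t := by rw [← h6, mul_assoc, htt, mul_one]
          rw [this]; exact htc w hwS
        exact key (a * t) (H.mul_mem haH htH) (by rw [he, h7]; group)
  have hsq := hA.sq htS htc hA2 hU
  have hXel : ∀ x ∈ S ⊓ H, x * x = 1 := by
    rintro x ⟨hxS, hxH⟩
    rcases hA.cov x hxH with h1 | h1
    · exact hsq x hxS h1
    · have h2 := hsq _ (S.mul_mem hxS htS) h1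
      have h3 := htc x hxS
      calc x * x = x * x * (t * t) := by rw [htt, mul_one]
        _ = x * (x * t) * t := by group
        _ = x * (t * x) * t := by rw [h3]
        _ = x * t * (x * t) := by group
        _ = 1 := h2
  have hXab : Ab (S ⊓ H) := by
    intro x hx y hy
    have h1 := hXel x hx
    have h2 := hXel y hy
    have h3 := hXel _ ((S ⊓ H).mul_mem hx hy)
    calc x * y = x * y * ((x * y) * (x * y))⁻¹ := by rw [h3]; group
      _ = (x * y)⁻¹ := by group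
      _ = y⁻¹ * x⁻¹ := mul_inv_rev _ _
      _ = y * x := by
        rw [inv_eq_of_mul_eq_one_left h1, inv_eq_of_mul_eq_one_left h2]
  have h5 := card_le_cent (C := S ⊓ B ⊓ H) hXab hXel hww hwn (by
    intro x hx hwx
    have hxJ : x ∈ J := cent_le_ov hD2 hceB hovJ hw1 hwB hwx.symm
    exact ⟨⟨hx.1, hSJ x hx.1 hxJ⟩, hx.2⟩)
  have h6 : Nat.card (S ⊓ B ⊓ H : Subgroup G) ≤ 2 :=
    card_le_two_of (s := t) (fun x hx => htHB x hx.2 hx.1.2)
  have h7 := hA.card_SH htS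
  have h8 := hA.two_le_card_U
  have h9 : Nat.card (S ⊓ B ⊓ H : Subgroup G) * Nat.card (S ⊓ B ⊓ H : Subgroup G) ≤ 2 * 2 :=
    Nat.mul_le_mul h6 h6
  omega

end Pool.Agent.H6.FKEC
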