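import Pool.Agent.H6.FK.Lib

/-!
# Row ED of the board fk2_modules
-/

set_option autoImplicit false

open Pool.Agent.H84.FK Pool.Agent.H6.FKLib

namespace Pool.Agent.H6.FKED

theorem str_swap {G : Type} [Group G] {A A0 B B0 S : Subgroup G} {s t : G}
    (h : Str G A A0 B B0 S s t) : Str G B B0 A A0 S t s := by
  obtain ⟨h1, h2, h3, h4, h5, h6, h7, h8, h9, h10, h11⟩ := h
  exact ⟨sy_swap h1, h3, h2, h5, h4, h7, h6, h9, h8, h11, h10⟩

theorem pf_ed (hED1 : T_ED1) (hSYL : T_SYL) (hFIX : T_FIX) (hJ2 : T_J2) (hD2 : T_D2)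
    (hD3 : T_D3) (hD4 : T_D4) (_hD7 : T_D7) (hSW : T_SW) (_hOVS : T_OVS) : T_ED := by
  intro G _ A A0 B B0 H J s t hce h2A h2B hovH htyH hovJ htyJ
  have := hce.fin
  obtain ⟨S, hsy⟩ := hSYL G A A0 B B0 hce
  refine ⟨S, ?_⟩
  have hceB := hSW G A A0 B B0 hce
  have hA := mk_side hFIX hJ2 hD2 hD3 hD4 hSW hce h2A h2B hovH htyH hsy
  have hB := mk_side hFIX hJ2 hD2 hD3 hD4 hSW hceB h2B h2A hovJ htyJ (sy_swap hsy)
  have hcaseS : s ∈ S → (∀ g ∈ S, g * s = s * g) → Str G A A0 B B0 S s t :=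
    hED1 G A A0 B B0 H J S s t hce h2A h2B hovH htyH hovJ htyJ hsy
  have hcaseT : t ∈ S → (∀ g ∈ S, g * t = t * g) → Str G A A0 B B0 S s t := fun h1 h2 =>
    str_swap (hED1 G B B0 A A0 J H S t s hceB h2B h2A hovJ htyJ hovH htyH (sy_swap hsy) h1 h2)
  obtain ⟨z, hzS, hz0, hz1, hzz, hzA⟩ := hA.zz
  obtain ⟨w, hwS, hw0, hw1, hww, hwB⟩ := hA.ww
  have hSne : S ≠ ⊥ := by
    rintro rfl
    exact hz1 (Subgroup.mem_bot.1 hzS)
  obtain ⟨v, hvS, hv1, hvv, hvc⟩ := exists_center hsy.pg hSne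
  have hvH : v ∈ H := cent_le_ov hD2 hce hovH hz1 hzA (hvc z hzS).symm
  have hvJ : v ∈ J := cent_le_ov hD2 hceB hovJ hw1 hwB (hvc w hwS).symm
  obtain ⟨hsA, hsA0, hss, hsJ, hsJA⟩ := htyJ
  obtain ⟨htB, htB0, htt, htH, htHB⟩ := htyH
  rcases hB.cov v hvJ with h1 | h1
  · rcases htHB v hvH h1 with h2 | h2
    · exact absurd h2 hv1
    · exact hcaseT (h2 ▸ hvS) (h2 ▸ hvc)
  · rcases htHB _ (H.mul_mem hvH (hovH.le hsA)) h1 with h2 | h2
    · have h3 : v = s := by
        have : v = s⁻¹ := eq_inv_of_mul_eq_one_left h2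
        rw [this, inv_eq_of_mul_eq_one_left hss]
      exact hcaseS (h3 ▸ hvS) (h3 ▸ hvc)
    · have hv : v = t * s := by
        rw [← h2, mul_assoc, hss, mul_one]
      obtain ⟨b, hb, hbS, a, ha, haS, hab⟩ := (sy_swap hsy).fac v hvS
      have h3 : b⁻¹ * t = a * s⁻¹ := by
        have : b⁻¹ * (t * s) * s⁻¹ = b⁻¹ * (b * a) * s⁻¹ := by rw [← hv, hab]
        calc b⁻¹ * t = b⁻¹ * (t * s) * s⁻¹ := by group
          _ = b⁻¹ * (b * a) * s⁻¹ := this
          _ = a * s⁻¹ := by group
      have h4 : a * s⁻¹ = 1 := hA.inter _ (A.mul_mem ha (A.inv_mem hsA))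
        (h3 ▸ B.mul_mem (B.inv_mem hb) htB)
      have hsS : s ∈ S := by
        have : a = s := mul_inv_eq_one.1 h4
        exact this ▸ haS
      have htS : t ∈ S := by
        have : b = t := inv_mul_eq_one.1 (h3.trans h4)
        exact this ▸ hbS
      have hst : s * t = t * s := by
        have h5 := hvc s hsS
        rw [hv] at h5
        exact mul_right_cancel (b := s) (by
          calc s * t * s = s * (t * s) := by group
            _ = t * s * s := h5)
      have hA2 := hA.abA2 htS hsA hsS (by rw [hst, ← hv]; exact hvc)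
      have hB2 := hB.abA2 hsS htB htS (by rw [← hv]; exact hvc)
      refine hcaseS hsS ?_
      intro g hg
      obtain ⟨a', ha', haS', b', hb', hbS', rfl⟩ := hsy.fac g hg
      have h5 : a' * s = s * a' := hA2 a' haS' ha' s hsS hsA
      have h6 : b' * t = t * b' := hB2 b' hbS' hb' t htS htB
      have h7 : b' * (t * s) = t * s * b' := by rw [← hv]; exact hvc b' hbS'
      have h8 : b' * s = s * b' := by
        have : t * (b' * s) = t * (s * b') := by
          calc t * (b' * s) = (t * b') * s := by group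
            _ = (b' * t) * s := by rw [h6]
            _ = b' * (t * s) := by group
            _ = t * s * b' := h7
            _ = t * (s * b') := by group
        exact mul_left_cancel this
      calc a' * b' * s = a' * (b' * s) := by group
        _ = a' * (s * b') := by rw [h8]
        _ = a' * s * b' := by group
        _ = s * a' * b' := by rw [h5]
        _ = s * (a' * b') := by group

end Pool.Agent.H6.FKED
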