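import Pool.Agent.H6.FK.Lib

/-!
# Row ED1 of the board fk2_modules
-/

set_option autoImplicit false

open Pool.Agent.H84.FK Pool.Agent.H6.FKLib
open scoped commutatorElement

namespace Pool.Agent.H6.FKED1

theorem pf_ed1 (hFIX : T_FIX) (hJ2 : T_J2) (hD2 : T_D2) (hD3 : T_D3) (hD4 : T_D4) (_hD7 : T_D7)
    (hSW : T_SW) (_hOVS : T_OVS) : T_ED1 := by
  intro G _ A A0 B B0 H J S s t hce h2A h2B hovH htyH hovJ htyJ hsy hsS hsc
  have := hce.fin
  have hceB := hSW G A A0 B B0 hce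
  have hA := mk_side hFIX hJ2 hD2 hD3 hD4 hSW hce h2A h2B hovH htyH hsy
  have hB := mk_side hFIX hJ2 hD2 hD3 hD4 hSW hceB h2B h2A hovJ htyJ (sy_swap hsy)
  obtain ⟨hsA, hsA0, hss, hsJ, hsJA⟩ := htyJ
  obtain ⟨htB, htB0, htt, htH, htHB⟩ := htyH
  have hB2 := hB.abA2 hsS B.one_mem S.one_mem (by simpa using hsc)
  have hV := hB.cenU hB2
  have hBsq := hB.sq hsS hsc hB2 hV
  have hU : ∀ x ∈ S, x ∈ A0 → ∀ a ∈ A, a * x = x * a := by
    intro x hx hx0
    exact two_cent hce.twoA hsA hsA0 (fun b hb => hce.abA b hb x hx0) (hsc x hx).symm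
  have hcV := hB.card_U_le hsS hV
  -- `X = S ∩ J` is elementary abelian
  have hXel : ∀ x ∈ S ⊓ J, x * x = 1 := by
    rintro x ⟨hxS, hxJ⟩
    rcases hB.cov x hxJ with h1 | h1
    · exact hBsq x hxS h1
    · have h2 := hBsq _ (S.mul_mem hxS hsS) h1
      have h3 := hsc x hxS
      calc x * x = x * x * (s * s) := by rw [hss, mul_one]
        _ = x * (x * s) * s := by group
        _ = x * (s * x) * s := by rw [h3]
        _ = x * s * (x * s) := by group
        _ = 1 := h2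
  have hXab : Ab (S ⊓ J) := by
    intro x hx y hy
    have h1 := hXel x hx
    have h2 := hXel y hy
    have h3 := hXel _ ((S ⊓ J).mul_mem hx hy)
    calc x * y = x * y * ((x * y) * (x * y))⁻¹ := by rw [h3]; group
      _ = (x * y)⁻¹ := by group
      _ = y⁻¹ * x⁻¹ := mul_inv_rev _ _
      _ = y * x := by
        rw [inv_eq_of_mul_eq_one_left h1, inv_eq_of_mul_eq_one_left h2]
  -- `t ∈ S`
  have htS : t ∈ S := by
    by_contra htS
    have hSH : S ⊓ H = S ⊓ A := by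
      apply le_antisymm
      · rintro g ⟨hgS, hgH⟩
        obtain ⟨b, hb, hbS, a, ha, haS, rfl⟩ := (sy_swap hsy).fac g hgS
        have hbH : b ∈ H := by
          have : b = b * a * a⁻¹ := by group
          rw [this]
          exact H.mul_mem hgH (H.inv_mem (hovH.le ha))
        rcases htHB b hbH hb with h1 | h1
        · rw [h1, one_mul]; exact ⟨haS, ha⟩
        · exact absurd (h1 ▸ hbS) htS
      · exact fun x hx => ⟨hx.1, hovH.le hx.2⟩
    have hcU : Nat.card (S ⊓ A0 : Subgroup G) ≤ 2 := by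
      obtain ⟨g, hgS, hgH, hgn⟩ := hA.exists_g
      have h1 := card_sq_le (U := S ⊓ A0) (Y := S ⊓ H) (g := g)
        (fun x hx => ⟨hx.1, hA.le_A (hce.twoA.1 hx.2)⟩)
        (fun x hx => (hgn x).1 ⟨hx.1, hA.le_A (hce.twoA.1 hx.2)⟩) (hA.ti hU hgH)
      rw [hSH, hA.card_A2] at h1
      have h2 : 0 < Nat.card (S ⊓ A0 : Subgroup G) := Nat.card_pos
      exact Nat.le_of_mul_le_mul_right h1 h2
    obtain ⟨z, hzS, hz0, hz1, hzz, hzA⟩ := hA.zz
    obtain ⟨g, hgS, hgJ, hgn⟩ := hB.exists_g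
    obtain ⟨a, haA, haS, b, hbB, hbS, rfl⟩ := hsy.fac g hgS
    have hbX : b ∈ S ⊓ J := ⟨hbS, hovJ.le hbB⟩
    have han : ∀ x, x ∈ S ⊓ J → a * x * a⁻¹ ∈ S ⊓ J := by
      intro x hx
      have h1 := (hgn (b⁻¹ * x * b)).1
        ((S ⊓ J).mul_mem ((S ⊓ J).mul_mem ((S ⊓ J).inv_mem hbX) hx) hbX)
      have h2 : a * b * (b⁻¹ * x * b) * (a * b)⁻¹ = a * x * a⁻¹ := by group
      rwa [h2] at h1
    have haJ : a ∉ J := fun h => hgJ (J.mul_mem h (hovJ.le hbB))
    have hzn : ∀ x ∈ S ⊓ J, z * x * z⁻¹ ∈ S ⊓ J := by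
      rcases two_split' hce.twoA hsA hsA0 haA with h1 | h1
      · have hne : a ≠ 1 := fun h => haJ (h ▸ J.one_mem)
        have : a = z := eq_of_card_le_two hcU ⟨haS, h1⟩ ⟨hzS, hz0⟩ hne hz1
        intro x hx
        rw [← this]; exact han x hx
      · have hne : a * s ≠ 1 := by
          intro h
          have : a = s⁻¹ := eq_inv_of_mul_eq_one_left h
          exact haJ (this ▸ J.inv_mem hsJ)
        have : a * s = z :=
          eq_of_card_le_two hcU ⟨S.mul_mem haS hsS, h1⟩ ⟨hzS, hz0⟩ hne hz1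
        intro x hx
        rw [← this]
        have h2 : a * s * x * (a * s)⁻¹ = a * x * a⁻¹ := by
          have h3 := hsc x hx.1
          calc a * s * x * (a * s)⁻¹ = a * (s * x) * s⁻¹ * a⁻¹ := by group
            _ = a * (x * s) * s⁻¹ * a⁻¹ := by rw [h3]
            _ = a * x * a⁻¹ := by group
        rw [h2]
        exact han x hx
    have h3 := card_le_cent (C := S ⊓ A ⊓ J) hXab hXel hzz hzn (by
      intro x hx hzx
      have hxH : x ∈ H := cent_le_ov hD2 hce hovH hz1 hzA hzx.symm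
      have : x ∈ S ⊓ A := by rw [← hSH]; exact ⟨hx.1, hxH⟩
      exact ⟨this, hx.2⟩)
    have h4 : Nat.card (S ⊓ A ⊓ J : Subgroup G) ≤ 2 :=
      card_le_two_of (s := s) (fun x hx => hsJA x hx.2 hx.1.2)
    have h5 := hB.card_SH hsS
    have h6 := hB.two_le_card_U
    have h7 : Nat.card (S ⊓ A ⊓ J : Subgroup G) * Nat.card (S ⊓ A ⊓ J : Subgroup G) ≤ 2 * 2 :=
      Nat.mul_le_mul h4 h4
    omega
  -- `S ∩ H` is abelian
  have hUt : ∀ u ∈ S ⊓ A0, t * u * t⁻¹ ∈ S ⊓ A0 := by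
    rintro u ⟨huS, hu0⟩
    have huA := hce.twoA.1 hu0
    refine ⟨S.mul_mem (S.mul_mem htS huS) (S.inv_mem htS), hA.cA _ (hA.nor u huA) ?_⟩
    intro a ha
    have hti : t⁻¹ = t := inv_eq_of_mul_eq_one_left htt
    have h1 : t⁻¹ * a * t ∈ A := by
      have := hA.nor a ha
      rw [hti] at *
      exact this
    have h2 := hU u huS hu0 _ h1
    calc a * (t * u * t⁻¹) = t * (t⁻¹ * a * t * u) * t⁻¹ := by group
      _ = t * (u * (t⁻¹ * a * t)) * t⁻¹ := by rw [h2]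
      _ = t * u * t⁻¹ * a := by group
  have hdec : ∀ x ∈ S ⊓ H, ∃ q : G, (q ∈ S ⊓ A0 ∨ ∃ u ∈ S ⊓ A0, q = u * t) ∧
      ∃ z : G, (∀ g ∈ S, g * z = z * g) ∧ x = q * z := by
    rintro x ⟨hxS, hxH⟩
    rcases hA.cov x hxH with h1 | h1
    · rcases two_split' hce.twoA hsA hsA0 h1 with h2 | h2
      · exact ⟨x, Or.inl ⟨hxS, h2⟩, 1, by simp, by simp⟩
      · refine ⟨x * s, Or.inl ⟨S.mul_mem hxS hsS, h2⟩, s, hsc, ?_⟩
        rw [mul_assoc, hss, mul_one]
    · rcases two_split' hce.twoA hsA hsA0 h1 with h2 | h2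
      · refine ⟨x, Or.inr ⟨x * t, ⟨S.mul_mem hxS htS, h2⟩, ?_⟩, 1, by simp, by simp⟩
        rw [mul_assoc, htt, mul_one]
      · refine ⟨x * t * s * t, Or.inr ⟨x * t * s, ⟨S.mul_mem (S.mul_mem hxS htS) hsS, h2⟩, rfl⟩,
          s, hsc, ?_⟩
        have h3 := hsc t htS
        calc x = x * (t * t) * (s * s) := by rw [htt, hss]; group
          _ = x * t * (t * s) * s := by group
          _ = x * t * (s * t) * s := by rw [h3]
          _ = x * t * s * t * s := by group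
  have hcomm : ⁅S ⊓ H, S ⊓ H⁆ ≤ S ⊓ A0 := by
    rw [Subgroup.commutator_le]
    intro x hx y hy
    obtain ⟨q, hq, z, hz, rfl⟩ := hdec x hx
    obtain ⟨q', hq', z', hz', rfl⟩ := hdec y hy
    have hqS : q ∈ S := by
      rcases hq with h | ⟨u, hu, rfl⟩
      · exact h.1
      · exact S.mul_mem hu.1 htS
    have hqS' : q' ∈ S := by
      rcases hq' with h | ⟨u, hu, rfl⟩
      · exact h.1
      · exact S.mul_mem hu.1 htS
    have e1 : ⁅q * z, q' * z'⁆ = ⁅q, q'⁆ := by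
      rw [commutatorElement_def, commutatorElement_def]
      have h1 : z * q' = q' * z := (hz q' hqS').symm
      have hz'' : z * z' = z' * z := by
        have hzz : z ∈ S := by
          have : z = q⁻¹ * (q * z) := by group
          rw [this]
          exact S.mul_mem (S.inv_mem hqS) hx.1
        exact hz' z hzz
      have h3 : z' * q⁻¹ = q⁻¹ * z' := (hz' _ (S.inv_mem hqS)).symm
      calc q * z * (q' * z') * (q * z)⁻¹ * (q' * z')⁻¹
          = q * (z * q') * z' * z⁻¹ * q⁻¹ * z'⁻¹ * q'⁻¹ := by group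
        _ = q * q' * (z * z') * z⁻¹ * q⁻¹ * z'⁻¹ * q'⁻¹ := by rw [h1]; group
        _ = q * q' * (z' * q⁻¹) * z'⁻¹ * q'⁻¹ := by rw [hz'']; group
        _ = q * q' * q⁻¹ * q'⁻¹ := by rw [h3]; group
    rw [e1, commutatorElement_def]
    set U := S ⊓ A0 with hUdef
    rcases hq with hq | ⟨u, hu, rfl⟩ <;> rcases hq' with hq' | ⟨u', hu', rfl⟩
    · exact U.mul_mem (U.mul_mem (U.mul_mem hq hq') (U.inv_mem hq)) (U.inv_mem hq')
    · have h1 : q * (u' * t) * q⁻¹ * (u' * t)⁻¹ = q * u' * (t * q⁻¹ * t⁻¹) * u'⁻¹ := by group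
      rw [h1]
      exact U.mul_mem (U.mul_mem (U.mul_mem hq hu') (hUt _ (U.inv_mem hq))) (U.inv_mem hu')
    · have h1 : u * t * q' * (u * t)⁻¹ * q'⁻¹ = u * (t * q' * t⁻¹) * u⁻¹ * q'⁻¹ := by group
      rw [h1]
      exact U.mul_mem (U.mul_mem (U.mul_mem hu (hUt _ hq')) (U.inv_mem hu)) (U.inv_mem hq')
    · have h1 : u * t * (u' * t) * (u * t)⁻¹ * (u' * t)⁻¹ =
          u * (t * (u' * u⁻¹) * t⁻¹) * u'⁻¹ := by group
      rw [h1]
      exact U.mul_mem (U.mul_mem hu (hUt _ (U.mul_mem hu' (U.inv_mem hu)))) (U.inv_mem hu')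
  have hbot : ⁅S ⊓ H, S ⊓ H⁆ = ⊥ := by
    by_contra hne
    obtain ⟨g, hgS, hgH, hgn⟩ := hA.exists_g
    refine hgH (norm_le_ov hce hovH hne
      (fun x hx y hy => hce.abA x (hcomm hx).2 y (hcomm hy).2) ?_ (conj_commutator hgn))
    intro a ha x hx
    have : a * x * a⁻¹ = x := by rw [hU x (hcomm hx).1 (hcomm hx).2 a ha]; group
    rw [this]; exact hx
  have hPab : ∀ x ∈ S ⊓ H, ∀ y ∈ S ⊓ H, x * y = y * x := by
    intro x hx y hy
    have h1 : ⁅x, y⁆ ∈ ⁅S ⊓ H, S ⊓ H⁆ := Subgroup.commutator_mem_commutator hx hy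
    rw [hbot, Subgroup.mem_bot, commutatorElement_eq_one_iff_mul_comm] at h1
    exact h1
  have htc : ∀ g ∈ S, g * t = t * g := by
    intro g hg
    obtain ⟨a, ha, haS, b, hb, hbS, rfl⟩ := hsy.fac g hg
    have h1 : a * t = t * a := hPab a ⟨haS, hovH.le ha⟩ t ⟨htS, htH⟩
    have h2 : b * t = t * b := hB2 b hbS hb t htS htB
    calc a * b * t = a * (b * t) := by group
      _ = a * (t * b) := by rw [h2]
      _ = (a * t) * b := by group
      _ = (t * a) * b := by rw [h1]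
      _ = t * (a * b) := by group
  have hA2 : ∀ a ∈ S, a ∈ A → ∀ b ∈ S, b ∈ A → a * b = b * a :=
    fun a haS ha b hbS hb => hPab a ⟨haS, hovH.le ha⟩ b ⟨hbS, hovH.le hb⟩
  exact ⟨hsy, hsS, htS, hsc, htc, hA.sq htS htc hA2 hU, hBsq, hU, hV, hA.card_U_le htS hU, hcV⟩

end Pool.Agent.H6.FKED1
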