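import Pool.Agent.H84.FK.Targets2

/-!
# Tools for the case `both even` of the board fk2_modules
-/

set_option autoImplicit false

open Pool.Agent.H84.FK
open scoped commutatorElement

namespace Pool.Agent.H6.FKLib

variable {G : Type} [Group G]

/-- normaliser growth in a `2`-group -/
theorem exists_norm [Finite G] {S X : Subgroup G} (hS : IsPGroup 2 S) (hXS : X ≤ S)
    (hne : X ≠ S) : ∃ g ∈ S, g ∉ X ∧ ∀ x, x ∈ X ↔ g * x * g⁻¹ ∈ X := by
  have : Fact (Nat.Prime 2) := ⟨Nat.prime_two⟩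
  have hnil : Group.IsNilpotent S := hS.isNilpotent
  have hnc := Group.normalizerCondition_of_isNilpotent (G := S)
  have hlt : X.subgroupOf S < ⊤ := by
    rw [lt_top_iff_ne_top, Ne, Subgroup.subgroupOf_eq_top]
    intro h
    exact hne (le_antisymm hXS h)
  have h2 := hnc _ hlt
  obtain ⟨g, hg, hg'⟩ := SetLike.exists_of_lt h2
  rw [Subgroup.mem_normalizer_iff] at hg
  refine ⟨g, g.2, fun h => hg' (Subgroup.mem_subgroupOf.2 h), fun x => ⟨fun hx => ?_, fun hx => ?_⟩⟩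
  · exact Subgroup.mem_subgroupOf.1 ((hg ⟨x, hXS hx⟩).1 (Subgroup.mem_subgroupOf.2 hx))
  · have hxS : x ∈ S := by
      have h3 := S.mul_mem (S.mul_mem (S.inv_mem g.2) (hXS hx)) g.2
      simpa [mul_assoc] using h3
    exact Subgroup.mem_subgroupOf.1 ((hg ⟨x, hxS⟩).2 (Subgroup.mem_subgroupOf.2 hx))

/-- central involutions -/
theorem exists_center [Finite G] {S : Subgroup G} (hS : IsPGroup 2 S) (hne : S ≠ ⊥) :
    ∃ v ∈ S, v ≠ 1 ∧ v * v = 1 ∧ ∀ g ∈ S, g * v = v * g := by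
  have : Fact (Nat.Prime 2) := ⟨Nat.prime_two⟩
  have hnt : Nontrivial S := (Subgroup.nontrivial_iff_ne_bot S).2 hne
  have hc : Nontrivial (Subgroup.center S) := hS.center_nontrivial
  have hpc : IsPGroup 2 (Subgroup.center S) := hS.to_subgroup _
  rcases hpc.card_eq_or_dvd with h | h
  · exfalso
    have := Finite.one_lt_card_iff_nontrivial.2 hc
    omega
  · obtain ⟨v, hv⟩ := exists_prime_orderOf_dvd_card' 2 h
    refine ⟨((v : S) : G), (v : S).2, ?_, ?_, ?_⟩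
    · intro h1
      have h2 : v = 1 := Subtype.ext (Subtype.ext h1)
      rw [h2, orderOf_one] at hv
      omega
    · have h1 : v ^ 2 = 1 := by rw [← hv]; exact pow_orderOf_eq_one v
      rw [pow_two] at h1
      have h2 := congrArg (fun x : Subgroup.center S => ((x : S) : G)) h1
      simpa using h2
    · intro g hg
      have h1 := Subgroup.mem_center_iff.1 v.2 ⟨g, hg⟩
      have h2 := congrArg (fun x : S => (x : G)) h1
      simpa using h2

theorem solvable_of_ab {X : Subgroup G} (h : Ab X) : Group.IsSolvable X := by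
  refine Group.isSolvable_of_comm ?_
  rintro ⟨x, hx⟩ ⟨y, hy⟩
  exact Subtype.ext (h x hx y hy)

/-- the normaliser of a nontrivial subgroup normalised by `A` is inside the overgroup -/
theorem norm_le_ov {A A0 B B0 H X : Subgroup G} (hce : CE2 G A A0 B B0) (hov : Ov G A H)
    (hX : X ≠ ⊥) (hab : Ab X) (hA : ∀ a ∈ A, ∀ x ∈ X, a * x * a⁻¹ ∈ X) {g : G}
    (hg : ∀ x, x ∈ X ↔ g * x * g⁻¹ ∈ X) : g ∈ H := by
  have hN : Subgroup.normalizer (X : Set G) ≠ ⊤ := by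
    intro h
    have hnorm : X.Normal := Subgroup.normalizer_eq_top_iff.1 h
    exact hX (hce.quo X hnorm (solvable_of_ab hab))
  have hAN : A ≤ Subgroup.normalizer (X : Set G) := by
    intro a ha
    rw [Subgroup.mem_normalizer_iff]
    intro x
    refine ⟨hA a ha x, fun h => ?_⟩
    have := hA a⁻¹ (A.inv_mem ha) _ h
    simpa [mul_assoc] using this
  exact hov.max _ hAN hN (Subgroup.mem_normalizer_iff.2 hg)

/-- the centraliser of a nontrivial element commuting with `A` is inside the overgroup -/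
theorem cent_le_ov {A A0 B B0 H : Subgroup G} (hD2 : T_D2) (hce : CE2 G A A0 B B0)
    (hov : Ov G A H) {x : G} (hx : x ≠ 1) (hA : ∀ a ∈ A, a * x = x * a) {g : G}
    (hg : g * x = x * g) : g ∈ H := by
  have hN : Subgroup.centralizer ({x} : Set G) ≠ ⊤ := by
    intro h
    refine hD2 G A A0 B B0 hce x x hx hx ?_
    intro g
    have h1 : g ∈ Subgroup.centralizer ({x} : Set G) := by rw [h]; trivial
    rw [Subgroup.mem_centralizer_singleton_iff] at h1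
    have h2 : g * x * g⁻¹ = x := by rw [h1]; group
    rw [h2]
  have hAN : A ≤ Subgroup.centralizer ({x} : Set G) := by
    intro a ha
    rw [Subgroup.mem_centralizer_singleton_iff]
    exact hA a ha
  refine hov.max _ hAN hN ?_
  rw [Subgroup.mem_centralizer_singleton_iff]
  exact hg

/-! ### subgroups of index two -/

theorem two_norm {B B0 : Subgroup G} (h : Two B B0) {b x : G} (hb : b ∈ B) (hx : x ∈ B0) :
    b * x * b⁻¹ ∈ B0 := by
  by_cases hb0 : b ∈ B0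
  · exact B0.mul_mem (B0.mul_mem hb0 hx) (B0.inv_mem hb0)
  · refine h.2 _ (B.mul_mem hb (h.1 hx)) _ (B.inv_mem hb) ?_ ?_
    · intro h1
      exact hb0 (by simpa using B0.mul_mem h1 (B0.inv_mem hx))
    · intro h1
      exact hb0 (by simpa using B0.inv_mem h1)

theorem two_split {B B0 : Subgroup G} (h : Two B B0) {t b : G} (ht : t ∈ B) (ht0 : t ∉ B0)
    (hb : b ∈ B) : b ∈ B0 ∨ t⁻¹ * b ∈ B0 := by
  by_cases hb0 : b ∈ B0
  · exact Or.inl hb0
  · exact Or.inr (h.2 _ (B.inv_mem ht) _ hb (fun h1 => ht0 (by simpa using B0.inv_mem h1)) hb0)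

theorem two_split' {B B0 : Subgroup G} (h : Two B B0) {t b : G} (ht : t ∈ B) (ht0 : t ∉ B0)
    (hb : b ∈ B) : b ∈ B0 ∨ b * t ∈ B0 := by
  by_cases hb0 : b ∈ B0
  · exact Or.inl hb0
  · exact Or.inr (h.2 _ hb _ ht hb0 ht0)

theorem two_cent {B B0 : Subgroup G} (h : Two B B0) {t x : G} (ht : t ∈ B) (ht0 : t ∉ B0)
    (h0 : ∀ b ∈ B0, b * x = x * b) (h1 : t * x = x * t) : ∀ b ∈ B, b * x = x * b := by
  intro b hb
  rcases two_split h ht ht0 hb with h2 | h2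
  · exact h0 b h2
  · have h3 := h0 _ h2
    calc b * x = t * (t⁻¹ * b * x) := by group
      _ = t * (x * (t⁻¹ * b)) := by rw [h3]
      _ = (t * x) * (t⁻¹ * b) := by group
      _ = (x * t) * (t⁻¹ * b) := by rw [h1]
      _ = x * b := by group

theorem two_comm {B B0 : Subgroup G} (h : Two B B0) {a b : G} (ha : a ∈ B) (hb : b ∈ B) :
    a * b * a⁻¹ * b⁻¹ ∈ B0 := by
  by_cases ha0 : a ∈ B0
  · have := B0.mul_mem ha0 (two_norm h hb (B0.inv_mem ha0))
    simpa [mul_assoc] using this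
  · by_cases hb0 : b ∈ B0
    · exact B0.mul_mem (two_norm h ha hb0) (B0.inv_mem hb0)
    · have h1 : a * b ∈ B0 := h.2 a ha b hb ha0 hb0
      have h2 : a⁻¹ * b⁻¹ ∈ B0 := h.2 _ (B.inv_mem ha) _ (B.inv_mem hb)
        (fun h1 => ha0 (by simpa using B0.inv_mem h1)) (fun h1 => hb0 (by simpa using B0.inv_mem h1))
      have := B0.mul_mem h1 h2
      simpa [mul_assoc] using this

theorem two_sq {B B0 : Subgroup G} (h : Two B B0) {a : G} (ha : a ∈ B) : a * a ∈ B0 := by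
  by_cases ha0 : a ∈ B0
  · exact B0.mul_mem ha0 ha0
  · exact h.2 a ha a ha ha0 ha0

theorem card_two {X Y : Subgroup G} (hXY : X ≤ Y) {t : G} (ht : t ∈ Y) (ht' : t ∉ X)
    (h : ∀ g ∈ Y, g ∈ X ∨ g * t ∈ X) : Nat.card Y = 2 * Nat.card X := by
  have h1 : X.relIndex Y = 2 :=
    Subgroup.relIndex_eq_two_iff_exists_notMem_and.2 ⟨t, ht, ht', fun b hb => (h b hb).symm⟩
  have h2 := Subgroup.card_mul_index (X.subgroupOf Y)
  rw [← h2, Nat.card_congr (Subgroup.subgroupOfEquivOfLe hXY).toEquiv]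
  have h3 : (X.subgroupOf Y).index = 2 := h1
  rw [h3, mul_comm]

/-! ### counting -/

theorem card_sq_le [Finite G] {U Y : Subgroup G} {g : G} (hU : U ≤ Y)
    (hg : ∀ u ∈ U, g * u * g⁻¹ ∈ Y) (hti : ∀ u ∈ U, ∀ u' ∈ U, u = g * u' * g⁻¹ → u = 1) :
    Nat.card U * Nat.card U ≤ Nat.card Y := by
  rw [← Nat.card_prod]
  refine Nat.card_le_card_of_injective
    (fun p : U × U => (⟨p.1 * (g * p.2 * g⁻¹), Y.mul_mem (hU p.1.2) (hg _ p.2.2)⟩ : Y)) ?_
  rintro ⟨⟨a, ha⟩, ⟨b, hb⟩⟩ ⟨⟨c, hc⟩, ⟨d, hd⟩⟩ h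
  have h1 : a * (g * b * g⁻¹) = c * (g * d * g⁻¹) := congrArg (fun y : Y => (y : G)) h
  have h2 : c⁻¹ * a = g * (d * b⁻¹) * g⁻¹ := by
    have : c⁻¹ * a = c⁻¹ * (a * (g * b * g⁻¹)) * (g * b * g⁻¹)⁻¹ := by group
    rw [this, h1]; group
  have h3 := hti _ (U.mul_mem (U.inv_mem hc) ha) _ (U.mul_mem hd (U.inv_mem hb)) h2
  have h4 : a = c := by
    have := congrArg (fun x => c * x) h3
    simpa using this
  subst h4
  have h5 : g * (d * b⁻¹) * g⁻¹ = 1 := by rw [← h2, h3]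
  have h6 : d * b⁻¹ = 1 := by
    have : d * b⁻¹ = g⁻¹ * (g * (d * b⁻¹) * g⁻¹) * g := by group
    rw [this, h5]; group
  have h7 : d = b := mul_inv_eq_one.1 h6
  subst h7
  rfl

theorem card_le_cent [Finite G] {X C : Subgroup G} {u : G} (hab : Ab X)
    (hel : ∀ x ∈ X, x * x = 1) (hu : u * u = 1) (hn : ∀ x ∈ X, u * x * u⁻¹ ∈ X)
    (hC : ∀ x ∈ X, u * x = x * u → x ∈ C) : Nat.card X ≤ Nat.card C * Nat.card C := by
  classical
  have hui : u⁻¹ = u := inv_eq_of_mul_eq_one_left hu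
  have hfC : ∀ x : X, (x : G) * (u * x * u⁻¹) ∈ C := by
    rintro ⟨x, hx⟩
    refine hC _ (X.mul_mem hx (hn x hx)) ?_
    have h1 : u * (x * (u * x * u⁻¹)) = (u * x * u⁻¹) * (u * u) * x * u⁻¹ := by group
    have h2 := hab _ (hn x hx) x hx
    show u * (x * (u * x * u⁻¹)) = x * (u * x * u⁻¹) * u
    rw [h1, hu, mul_one, h2, hui]
  let f : X → C := fun x => ⟨(x : G) * (u * x * u⁻¹), hfC x⟩
  have hker : ∀ x y : X, f x = f y → (x : G) * (y : G)⁻¹ ∈ C := by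
    rintro ⟨x, hx⟩ ⟨y, hy⟩ h
    have h1 : x * (u * x * u⁻¹) = y * (u * y * u⁻¹) := congrArg (fun c : C => (c : G)) h
    have hd : x * y⁻¹ ∈ X := X.mul_mem hx (X.inv_mem hy)
    refine hC _ hd ?_
    have h2 : u * (x * y⁻¹) * u⁻¹ = (u * x * u⁻¹) * (u * y * u⁻¹)⁻¹ := by group
    have h3 : u * x * u⁻¹ = x⁻¹ * (y * (u * y * u⁻¹)) := by rw [← h1]; group
    have h4 : u * (x * y⁻¹) * u⁻¹ = x⁻¹ * y := by rw [h2, h3]; group
    have h5 : x⁻¹ * y = x * y⁻¹ := by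
      rw [inv_eq_of_mul_eq_one_left (hel x hx), inv_eq_of_mul_eq_one_left (hel y hy)]
    rw [h5] at h4
    show u * (x * y⁻¹) = x * y⁻¹ * u
    have h6 := congrArg (fun z => z * u) h4
    simpa using h6
  have hsurj : ∀ c : C, ∃ r : X, (∃ x, f x = c) → f r = c := by
    intro c
    by_cases h : ∃ x, f x = c
    · obtain ⟨x, hx⟩ := h
      exact ⟨x, fun _ => hx⟩
    · exact ⟨1, fun h' => absurd h' h⟩
  choose r hr using hsurj
  have hr' : ∀ x, f (r (f x)) = f x := fun x => hr _ ⟨x, rfl⟩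
  rw [← Nat.card_prod]
  refine Nat.card_le_card_of_injective
    (fun x : X => (f x, (⟨(x : G) * ((r (f x) : X) : G)⁻¹, hker _ _ (hr' x).symm⟩ : C))) ?_
  intro x y h
  have h1 : f x = f y := (Prod.ext_iff.1 h).1
  have h2 : (x : G) * ((r (f x) : X) : G)⁻¹ = (y : G) * ((r (f y) : X) : G)⁻¹ :=
    congrArg (fun c : C => (c : G)) (Prod.ext_iff.1 h).2
  rw [h1] at h2
  exact Subtype.ext (mul_right_cancel h2)

/-! ### one side of the factorisation -/

theorem sy_swap {A A0 B B0 S : Subgroup G} (h : SY G A A0 B B0 S) : SY G B B0 A A0 S where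
  pg := h.pg
  odd := h.odd
  fac g hg := by
    obtain ⟨a, ha, haS, b, hb, hbS, e⟩ := h.fac g⁻¹ (S.inv_mem hg)
    refine ⟨b⁻¹, B.inv_mem hb, S.inv_mem hbS, a⁻¹, A.inv_mem ha, S.inv_mem haS, ?_⟩
    rw [← mul_inv_rev, ← e, inv_inv]
  sA := h.sB
  sB := h.sA
  uA := h.uB
  uB := h.uA

/-- the situation on the side of `A` -/
structure Side (G : Type) [Group G] (A A0 B B0 H S : Subgroup G) (t : G) : Prop where
  d2 : T_D2
  ce : CE2 G A A0 B B0
  ov : Ov G A H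
  ty : TyII B B0 H t
  sy : SY G A A0 B B0 S
  cov : ∀ j ∈ H, j ∈ A ∨ j * t ∈ A
  nor : ∀ a ∈ A, t * a * t⁻¹ ∈ A
  inter : ∀ x ∈ A, x ∈ B → x = 1
  cA : ∀ c ∈ A, (∀ a ∈ A, a * c = c * a) → c ∈ A0
  zz : ∃ z ∈ S, z ∈ A0 ∧ z ≠ 1 ∧ z * z = 1 ∧ ∀ a ∈ A, a * z = z * a
  ww : ∃ w ∈ S, w ∈ B0 ∧ w ≠ 1 ∧ w * w = 1 ∧ ∀ b ∈ B, b * w = w * b

/-- a central involution of `A` in `A0` -/
theorem exists_inv {A A0 B B0 S : Subgroup G} (hFIX : T_FIX) (hce : CE2 G A A0 B B0)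
    (hsy : SY G A A0 B B0 S) (h2 : 2 ∣ Nat.card A0) :
    ∃ z ∈ S, z ∈ A0 ∧ z ≠ 1 ∧ z * z = 1 ∧ ∀ a ∈ A, a * z = z * a := by
  have := hce.fin
  obtain ⟨s, hs, hsA, hsA0⟩ := hsy.sA
  obtain ⟨z, hz, hzz, hz1, hc⟩ := hFIX G A0 s hce.abA h2
    (fun x hx => two_norm hce.twoA hsA hx) (two_sq hce.twoA hsA)
  refine ⟨z, hsy.uA z hz ⟨1, by simpa [pow_two] using hzz⟩, hz, hz1, hzz, ?_⟩
  exact two_cent hce.twoA hsA hsA0 (fun b hb => hce.abA b hb z hz) hc

theorem mk_side {A A0 B B0 H S : Subgroup G} {t : G} (hFIX : T_FIX) (hJ2 : T_J2) (hD2 : T_D2)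
    (hD3 : T_D3) (hD4 : T_D4) (hSW : T_SW) (hce : CE2 G A A0 B B0) (h2A : 2 ∣ Nat.card A0)
    (h2B : 2 ∣ Nat.card B0) (hov : Ov G A H) (hty : TyII B B0 H t) (hsy : SY G A A0 B B0 S) :
    Side G A A0 B B0 H S t where
  d2 := hD2
  ce := hce
  ov := hov
  ty := hty
  sy := hsy
  cov := (hJ2 G B B0 A A0 H t (hSW G A A0 B B0 hce) hov hty).1
  nor := (hJ2 G B B0 A A0 H t (hSW G A A0 B B0 hce) hov hty).2.1
  inter x hx hx' := hD3 G A A0 B B0 hce 1 x x hx hx' (by simp)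
  cA := by
    intro c hc hcc
    by_contra hc0
    refine (hD4 G A A0 B B0 hce).2.2.2.2.2.1 ?_
    intro x hx y hy
    have hxc : ∀ b ∈ A, b * x = x * b := by
      intro b hb
      rcases two_split' hce.twoA hc hc0 hx with h | h
      · exact (two_cent hce.twoA hc hc0 (fun b hb => hce.abA b hb x h) (hcc x hx).symm) b hb
      · have h1 : ∀ b ∈ A, b * (x * c) = x * c * b :=
          two_cent hce.twoA hc hc0 (fun b hb => hce.abA b hb _ h)
            (hcc _ (A.mul_mem hx hc)).symm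
        have h2 := h1 b hb
        have h3 : b * x * c = x * b * c := by
          calc b * x * c = b * (x * c) := by group
            _ = x * c * b := h2
            _ = x * (c * b) := by group
            _ = x * (b * c) := by rw [hcc b hb]
            _ = x * b * c := by group
        exact mul_right_cancel h3
    exact (hxc y hy).symm
  zz := exists_inv hFIX hce hsy h2A
  ww := exists_inv hFIX (hSW G A A0 B B0 hce) (sy_swap hsy) h2B

namespace Side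

variable {A A0 B B0 H S : Subgroup G} {t : G}

theorem w_notMem (h : Side G A A0 B B0 H S t) {w : G} (hw : w ∈ B0) (hw1 : w ≠ 1) : w ∉ H := by
  intro hwH
  rcases h.ty.2.2.2.2 w hwH (h.ce.twoB.1 hw) with h1 | h1
  · exact hw1 h1
  · exact h.ty.2.1 (h1 ▸ hw)

theorem le_A (h : Side G A A0 B B0 H S t) {a : G} (ha : a ∈ A) : a ∈ H := h.ov.le ha

theorem exists_g (h : Side G A A0 B B0 H S t) :
    ∃ g ∈ S, g ∉ H ∧ ∀ x, x ∈ S ⊓ H ↔ g * x * g⁻¹ ∈ S ⊓ H := by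
  have := h.ce.fin
  obtain ⟨w, hwS, hw0, hw1, -, -⟩ := h.ww
  have hne : S ⊓ H ≠ S := by
    intro he
    have : w ∈ S ⊓ H := by rw [he]; exact hwS
    exact h.w_notMem hw0 hw1 this.2
  obtain ⟨g, hg, hg', hn⟩ := exists_norm h.sy.pg (inf_le_left : S ⊓ H ≤ S) hne
  exact ⟨g, hg, fun hgH => hg' ⟨hg, hgH⟩, hn⟩

/-- the `2`-part of `A` is abelian -/
theorem abA2 (h : Side G A A0 B B0 H S t) (htS : t ∈ S) {e : G} (heA : e ∈ A) (heS : e ∈ S)
    (hc : ∀ g ∈ S, g * (e * t) = e * t * g) :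
    ∀ a ∈ S, a ∈ A → ∀ b ∈ S, b ∈ A → a * b = b * a := by
  have := h.ce.fin
  set P := S ⊓ H with hP
  set Q := S ⊓ A with hQ
  have hQP : Q ≤ P := fun x hx => ⟨hx.1, h.le_A hx.2⟩
  have htt := h.ty.2.2.1
  have hti : t⁻¹ = t := inv_eq_of_mul_eq_one_left htt
  -- decomposition of the elements of `P`
  have hdec : ∀ x ∈ P, ∃ q ∈ Q, ∃ z : G, (∀ g ∈ S, g * z = z * g) ∧ x = q * z := by
    rintro x ⟨hxS, hxH⟩
    rcases h.cov x hxH with h1 | h1
    · exact ⟨x, ⟨hxS, h1⟩, 1, by simp, by simp⟩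
    · refine ⟨x * t * e⁻¹, ⟨S.mul_mem (S.mul_mem hxS htS) (S.inv_mem heS),
        A.mul_mem h1 (A.inv_mem heA)⟩, e * t, hc, ?_⟩
      have : x * t * e⁻¹ * (e * t) = x * (t * t) := by group
      rw [this, htt, mul_one]
  have hcomm : ⁅P, P⁆ ≤ ⁅Q, Q⁆ := by
    rw [Subgroup.commutator_le]
    intro x hx y hy
    obtain ⟨q, hq, z, hz, rfl⟩ := hdec x hx
    obtain ⟨q', hq', z', hz', rfl⟩ := hdec y hy
    have e1 : ⁅q * z, q' * z'⁆ = ⁅q, q'⁆ := by
      rw [commutatorElement_def, commutatorElement_def]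
      have hzS : ∀ g ∈ S, z * g = g * z := fun g hg => (hz g hg).symm
      have h1 : z * q' = q' * z := hzS q' hq'.1
      have h2 : z' * q = q * z' := (hz' q hq.1).symm
      have hz'' : z * z' = z' * z := by
        have hzz : z ∈ S := by
          have : z = q⁻¹ * (q * z) := by group
          rw [this]
          exact S.mul_mem (S.inv_mem hq.1) hx.1
        exact hz' z hzz
      have h3 : z' * q⁻¹ = q⁻¹ * z' := (hz' _ (S.inv_mem hq.1)).symm
      have h4 : z' * q'⁻¹ = q'⁻¹ * z' := (hz' _ (S.inv_mem hq'.1)).symm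
      calc q * z * (q' * z') * (q * z)⁻¹ * (q' * z')⁻¹
          = q * (z * q') * z' * z⁻¹ * q⁻¹ * z'⁻¹ * q'⁻¹ := by group
        _ = q * q' * (z * z') * z⁻¹ * q⁻¹ * z'⁻¹ * q'⁻¹ := by rw [h1]; group
        _ = q * q' * (z' * q⁻¹) * z'⁻¹ * q'⁻¹ := by rw [hz'']; group
        _ = q * q' * q⁻¹ * q'⁻¹ := by rw [h3]; group
    rw [e1]
    exact Subgroup.commutator_mem_commutator hq hq'
  have heq : ⁅P, P⁆ = ⁅Q, Q⁆ := le_antisymm hcomm (Subgroup.commutator_mono hQP hQP)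
  have hle0 : ⁅Q, Q⁆ ≤ A0 := by
    rw [Subgroup.commutator_le]
    intro x hx y hy
    rw [commutatorElement_def]
    exact two_comm h.ce.twoA hx.2 hy.2
  have hab : Ab ⁅Q, Q⁆ := fun x hx y hy => h.ce.abA x (hle0 hx) y (hle0 hy)
  obtain ⟨s, hsS, hsA, hsA0⟩ := h.sy.sA
  have hQn : ∀ q ∈ Q, ∀ x ∈ ⁅Q, Q⁆, q * x * q⁻¹ ∈ ⁅Q, Q⁆ := by
    intro q hq x hx
    have hxQ : x ∈ Q := by
      have : ⁅Q, Q⁆ ≤ Q := by
        rw [Subgroup.commutator_le]
        intro a ha b hb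
        rw [commutatorElement_def]
        exact Q.mul_mem (Q.mul_mem (Q.mul_mem ha hb) (Q.inv_mem ha)) (Q.inv_mem hb)
      exact this hx
    have h1 : ⁅q, x⁆ ∈ ⁅Q, Q⁆ := Subgroup.commutator_mem_commutator hq hxQ
    have h2 := Subgroup.mul_mem _ h1 hx
    rw [commutatorElement_def] at h2
    simpa using h2
  have hAn : ∀ a ∈ A, ∀ x ∈ ⁅Q, Q⁆, a * x * a⁻¹ ∈ ⁅Q, Q⁆ := by
    intro a ha x hx
    rcases two_split h.ce.twoA hsA hsA0 ha with h1 | h1
    · have : a * x * a⁻¹ = x := by rw [h.ce.abA a h1 x (hle0 hx)]; group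
      rw [this]; exact hx
    · have h2 : a * x * a⁻¹ = s * ((s⁻¹ * a) * x * (s⁻¹ * a)⁻¹) * s⁻¹ := by group
      have h3 : (s⁻¹ * a) * x * (s⁻¹ * a)⁻¹ = x := by
        rw [h.ce.abA _ h1 x (hle0 hx)]; group
      rw [h2, h3]
      exact hQn s ⟨hsS, hsA⟩ x hx
  have hbot : ⁅Q, Q⁆ = ⊥ := by
    by_contra hne
    obtain ⟨g, hgS, hgH, hgn⟩ := h.exists_g
    refine hgH (norm_le_ov h.ce h.ov hne hab hAn ?_)
    have hmap : P.map (MulAut.conj g).toMonoidHom = P := by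
      ext y
      rw [Subgroup.mem_map]
      constructor
      · rintro ⟨x, hx, rfl⟩
        exact (hgn x).1 hx
      · intro hy
        refine ⟨g⁻¹ * y * g, ?_, ?_⟩
        · exact (hgn _).2 (by rw [show g * (g⁻¹ * y * g) * g⁻¹ = y by group]; exact hy)
        · simp [MulAut.conj_apply, mul_assoc]
    have hmap2 : (⁅P, P⁆ : Subgroup G).map (MulAut.conj g).toMonoidHom = ⁅P, P⁆ := by
      rw [Subgroup.map_commutator, hmap]
    intro x
    rw [← heq]
    conv_rhs => rw [← hmap2]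
    rw [Subgroup.mem_map]
    constructor
    · intro hx
      exact ⟨x, hx, rfl⟩
    · rintro ⟨y, hy, hxy⟩
      have : y = x := by
        have h1 : g * y * g⁻¹ = g * x * g⁻¹ := hxy
        exact mul_left_cancel (mul_right_cancel h1)
      rw [← this]; exact hy
  intro a haS haA b hbS hbA
  have h1 : ⁅a, b⁆ ∈ ⁅Q, Q⁆ := Subgroup.commutator_mem_commutator ⟨haS, haA⟩ ⟨hbS, hbA⟩
  rw [hbot, Subgroup.mem_bot, commutatorElement_eq_one_iff_mul_comm] at h1
  exact h1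

/-- the elements of `S ∩ A` are involutions -/
theorem sq (h : Side G A A0 B B0 H S t) (htS : t ∈ S) (hc : ∀ g ∈ S, g * t = t * g)
    (hab : ∀ a ∈ S, a ∈ A → ∀ b ∈ S, b ∈ A → a * b = b * a)
    (hU : ∀ x ∈ S, x ∈ A0 → ∀ a ∈ A, a * x = x * a) : ∀ x ∈ S, x ∈ A → x * x = 1 := by
  have := h.ce.fin
  have htt := h.ty.2.2.1
  let Q : Subgroup G :=
    { carrier := {y | ∃ x ∈ S, x ∈ A ∧ y = x * x}
      one_mem' := ⟨1, S.one_mem, A.one_mem, by simp⟩
      mul_mem' := by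
        rintro _ _ ⟨x, hx, hxA, rfl⟩ ⟨y, hy, hyA, rfl⟩
        refine ⟨x * y, S.mul_mem hx hy, A.mul_mem hxA hyA, ?_⟩
        have h1 := hab x hx hxA y hy hyA
        calc x * x * (y * y) = x * (x * y) * y := by group
          _ = x * (y * x) * y := by rw [h1]
          _ = x * y * (x * y) := by group
      inv_mem' := by
        rintro _ ⟨x, hx, hxA, rfl⟩
        exact ⟨x⁻¹, S.inv_mem hx, A.inv_mem hxA, by group⟩ }
  have hQ : ∀ y, y ∈ Q ↔ ∃ x ∈ S, x ∈ A ∧ y = x * x := fun y => Iff.rfl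
  have hQ0 : ∀ y ∈ Q, y ∈ S ∧ y ∈ A0 := by
    rintro y ⟨x, hx, hxA, rfl⟩
    exact ⟨S.mul_mem hx hx, two_sq h.ce.twoA hxA⟩
  have hbot : Q = ⊥ := by
    by_contra hne
    obtain ⟨g, hgS, hgH, hgn⟩ := h.exists_g
    refine hgH (norm_le_ov h.ce h.ov hne
      (fun x hx y hy => h.ce.abA x (hQ0 x hx).2 y (hQ0 y hy).2) ?_ ?_)
    · intro a ha x hx
      have : a * x * a⁻¹ = x := by rw [hU x (hQ0 x hx).1 (hQ0 x hx).2 a ha]; group
      rw [this]; exact hx
    · have key : ∀ g ∈ S, (∀ x, x ∈ S ⊓ H → g * x * g⁻¹ ∈ S ⊓ H) →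
          ∀ y ∈ Q, g * y * g⁻¹ ∈ Q := by
        rintro g hgS hgn y ⟨x, hx, hxA, rfl⟩
        have h1 := hgn x ⟨hx, h.le_A hxA⟩
        rcases h.cov _ h1.2 with h2 | h2
        · exact ⟨g * x * g⁻¹, h1.1, h2, by group⟩
        · refine ⟨g * x * g⁻¹ * t, S.mul_mem h1.1 htS, h2, ?_⟩
          have h3 := hc _ h1.1
          calc g * (x * x) * g⁻¹ = (g * x * g⁻¹) * (g * x * g⁻¹) := by group
            _ = (g * x * g⁻¹) * (g * x * g⁻¹) * (t * t) := by rw [htt, mul_one]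
            _ = (g * x * g⁻¹) * ((g * x * g⁻¹) * t) * t := by group
            _ = (g * x * g⁻¹) * (t * (g * x * g⁻¹)) * t := by rw [h3]
            _ = (g * x * g⁻¹) * t * (g * x * g⁻¹ * t) := by group
      intro y
      refine ⟨key g hgS (fun x hx => (hgn x).1 hx) y, fun hy => ?_⟩
      have := key g⁻¹ (S.inv_mem hgS) (fun x hx => (hgn _).2 (by simpa [mul_assoc] using hx)) _ hy
      simpa [mul_assoc] using this
  intro x hx hxA
  have : x * x ∈ Q := ⟨x, hx, hxA, rfl⟩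
  rw [hbot, Subgroup.mem_bot] at this
  exact this

/-- trivial intersection -/
theorem ti (h : Side G A A0 B B0 H S t) (hU : ∀ x ∈ S, x ∈ A0 → ∀ a ∈ A, a * x = x * a) {g : G}
    (hg : g ∉ H) : ∀ u ∈ S ⊓ A0, ∀ u' ∈ S ⊓ A0, u = g * u' * g⁻¹ → u = 1 := by
  intro u hu u' hu' he
  by_contra hu1
  refine hg (h.ov.conj g fun a ha => ?_)
  refine cent_le_ov h.d2 h.ce h.ov hu1 (hU u hu.1 hu.2) ?_
  have h1 := hU u' hu'.1 hu'.2 a ha
  rw [he]
  calc g * a * g⁻¹ * (g * u' * g⁻¹) = g * (a * u') * g⁻¹ := by group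
    _ = g * (u' * a) * g⁻¹ := by rw [h1]
    _ = g * u' * g⁻¹ * (g * a * g⁻¹) := by group

/-- `U` is centralised by `A` as soon as `S ∩ A` is abelian -/
theorem cenU (h : Side G A A0 B B0 H S t)
    (hab : ∀ a ∈ S, a ∈ A → ∀ b ∈ S, b ∈ A → a * b = b * a) :
    ∀ x ∈ S, x ∈ A0 → ∀ a ∈ A, a * x = x * a := by
  intro x hx hx0
  obtain ⟨s, hsS, hsA, hsA0⟩ := h.sy.sA
  exact two_cent h.ce.twoA hsA hsA0 (fun b hb => h.ce.abA b hb x hx0)
    (hab s hsS hsA x hx (h.ce.twoA.1 hx0))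

theorem card_A2 (h : Side G A A0 B B0 H S t) :
    Nat.card (S ⊓ A : Subgroup G) = 2 * Nat.card (S ⊓ A0 : Subgroup G) := by
  obtain ⟨s, hsS, hsA, hsA0⟩ := h.sy.sA
  refine card_two (fun x hx => ⟨hx.1, h.ce.twoA.1 hx.2⟩) (t := s) ⟨hsS, hsA⟩ (fun h1 => hsA0 h1.2) ?_
  intro g hg
  rcases two_split' h.ce.twoA hsA hsA0 hg.2 with h1 | h1
  · exact Or.inl ⟨hg.1, h1⟩
  · exact Or.inr ⟨S.mul_mem hg.1 hsS, h1⟩

theorem card_SH (h : Side G A A0 B B0 H S t) (htS : t ∈ S) :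
    Nat.card (S ⊓ H : Subgroup G) = 4 * Nat.card (S ⊓ A0 : Subgroup G) := by
  have h1 : Nat.card (S ⊓ H : Subgroup G) = 2 * Nat.card (S ⊓ A : Subgroup G) := by
    refine card_two (fun x hx => ⟨hx.1, h.le_A hx.2⟩) (t := t) ⟨htS, h.ty.2.2.2.1⟩ ?_ ?_
    · intro h1
      have := h.inter t h1.2 h.ty.1
      exact h.ty.2.1 (this ▸ B0.one_mem)
    · intro g hg
      rcases h.cov g hg.2 with h1 | h1
      · exact Or.inl ⟨hg.1, h1⟩
      · exact Or.inr ⟨S.mul_mem hg.1 htS, h1⟩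
  rw [h1, h.card_A2]; ring

theorem card_U_le (h : Side G A A0 B B0 H S t) (htS : t ∈ S)
    (hU : ∀ x ∈ S, x ∈ A0 → ∀ a ∈ A, a * x = x * a) :
    Nat.card (S ⊓ A0 : Subgroup G) ≤ 4 := by
  have := h.ce.fin
  obtain ⟨g, hgS, hgH, hgn⟩ := h.exists_g
  have h1 := card_sq_le (U := S ⊓ A0) (Y := S ⊓ H) (g := g)
    (fun x hx => ⟨hx.1, h.le_A (h.ce.twoA.1 hx.2)⟩)
    (fun x hx => (hgn x).1 ⟨hx.1, h.le_A (h.ce.twoA.1 hx.2)⟩) (h.ti hU hgH)
  rw [h.card_SH htS] at h1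
  have h2 : 0 < Nat.card (S ⊓ A0 : Subgroup G) := Nat.card_pos
  exact Nat.le_of_mul_le_mul_right h1 h2

theorem two_le_card_U (h : Side G A A0 B B0 H S t) : 2 ≤ Nat.card (S ⊓ A0 : Subgroup G) := by
  have := h.ce.fin
  obtain ⟨z, hzS, hz0, hz1, -, -⟩ := h.zz
  have hnt : Nontrivial (S ⊓ A0 : Subgroup G) := by
    rw [Subgroup.nontrivial_iff_exists_ne_one]
    exact ⟨z, ⟨hzS, hz0⟩, hz1⟩
  exact Finite.one_lt_card_iff_nontrivial.2 hnt

theorem two_le_card_V (h : Side G A A0 B B0 H S t) : 2 ≤ Nat.card (S ⊓ B0 : Subgroup G) := by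
  have := h.ce.fin
  obtain ⟨z, hzS, hz0, hz1, -, -⟩ := h.ww
  have hnt : Nontrivial (S ⊓ B0 : Subgroup G) := by
    rw [Subgroup.nontrivial_iff_exists_ne_one]
    exact ⟨z, ⟨hzS, hz0⟩, hz1⟩
  exact Finite.one_lt_card_iff_nontrivial.2 hnt

end Side

theorem eq_of_card_le_two [Finite G] {U : Subgroup G} (h : Nat.card U ≤ 2) {x y : G} (hx : x ∈ U)
    (hy : y ∈ U) (hx1 : x ≠ 1) (hy1 : y ≠ 1) : x = y := by
  classical
  by_contra hne
  have := Fintype.ofFinite U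
  rw [Nat.card_eq_fintype_card] at h
  have h1 : ({1, ⟨x, hx⟩, ⟨y, hy⟩} : Finset U).card = 3 := by
    rw [Finset.card_insert_of_notMem, Finset.card_insert_of_notMem, Finset.card_singleton]
    · simpa using hne
    · simp only [Finset.mem_insert, Finset.mem_singleton, not_or]
      exact ⟨fun h => hx1 (congrArg (fun u : U => (u : G)) h).symm,
        fun h => hy1 (congrArg (fun u : U => (u : G)) h).symm⟩
  have h2 := Finset.card_le_univ ({1, ⟨x, hx⟩, ⟨y, hy⟩} : Finset U)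
  omega

theorem card_le_two_of [Finite G] {C : Subgroup G} {s : G} (h : ∀ x ∈ C, x = 1 ∨ x = s) :
    Nat.card C ≤ 2 := by
  classical
  by_contra hlt
  push Not at hlt
  have := Fintype.ofFinite C
  rw [Nat.card_eq_fintype_card] at hlt
  obtain ⟨a, b, c, hab, hac, hbc⟩ := Fintype.two_lt_card_iff.1 hlt
  have ha := h a a.2
  have hb := h b b.2
  have hc := h c c.2
  have e1 : (a : G) ≠ b := fun h => hab (Subtype.ext h)
  have e2 : (a : G) ≠ c := fun h => hac (Subtype.ext h)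
  have e3 : (b : G) ≠ c := fun h => hbc (Subtype.ext h)
  rcases ha with ha | ha <;> rcases hb with hb | hb <;> rcases hc with hc | hc <;>
    simp_all

/-- conjugation by an element normalising `P` normalises the commutator subgroup of `P` -/
theorem conj_commutator {P : Subgroup G} {g : G} (hgn : ∀ x, x ∈ P ↔ g * x * g⁻¹ ∈ P) :
    ∀ x, x ∈ ⁅P, P⁆ ↔ g * x * g⁻¹ ∈ ⁅P, P⁆ := by
  have hmap : P.map (MulAut.conj g).toMonoidHom = P := by
    ext y
    rw [Subgroup.mem_map]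
    constructor
    · rintro ⟨x, hx, rfl⟩
      exact (hgn x).1 hx
    · intro hy
      refine ⟨g⁻¹ * y * g, ?_, ?_⟩
      · exact (hgn _).2 (by rw [show g * (g⁻¹ * y * g) * g⁻¹ = y by group]; exact hy)
      · simp [MulAut.conj_apply, mul_assoc]
  have hmap2 : (⁅P, P⁆ : Subgroup G).map (MulAut.conj g).toMonoidHom = ⁅P, P⁆ := by
    rw [Subgroup.map_commutator, hmap]
  intro x
  conv_rhs => rw [← hmap2]
  rw [Subgroup.mem_map]
  constructor
  · intro hx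
    exact ⟨x, hx, rfl⟩
  · rintro ⟨y, hy, hxy⟩
    have : y = x := by
      have h1 : g * y * g⁻¹ = g * x * g⁻¹ := hxy
      exact mul_left_cancel (mul_right_cancel h1)
    rw [← this]; exact hy

end Pool.Agent.H6.FKLib
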